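import Pool.Agent.MP_21de40_lc.Final

/-!
# Choose and the least inaccessible cardinal

If the least cardinal `κ` at which Choose wins `𝒰(κ, ≤ω)` is inaccessible, then it is Mahlo. In
particular it is not the least inaccessible cardinal. All definitions used are in
`Pool/Agent/MP_21de40_lc/Defs.lean`.
-/

namespace Pool.Agent.Results.MP_21de40_lc.LeastInaccessible

open Cardinal Order MP21de40

universe u

/-- For every cardinal `κ`:

* if `κ` is the least inaccessible cardinal, then Choose wins `𝒰(κ, ≤ω)` if and only if he already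
  wins `𝒰(μ, ≤ω)` for some regular uncountable `μ < κ`;
* if `κ` is the least (regular uncountable) cardinal at which Choose wins, then `κ` is the successor
  of a regular uncountable cardinal or weakly Mahlo, and if `κ` is inaccessible, then `κ` is
  Mahlo. -/
theorem result (κ : Cardinal.{u}) :
    (κ.IsInaccessible → (∀ μ < κ, ¬ μ.IsInaccessible) →
      (ChooseWins κ ↔ ∃ μ < κ, ℵ₀ < μ ∧ μ.IsRegular ∧ ChooseWins μ)) ∧
    (ChooseWins κ → (∀ μ < κ, ℵ₀ < μ → μ.IsRegular → ¬ ChooseWins μ) →
      ((∃ δ : Cardinal.{u}, ℵ₀ < δ ∧ δ.IsRegular ∧ κ = succ δ) ∨ IsWeaklyMahlo κ) ∧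
      (κ.IsInaccessible → IsMahlo κ)) :=
  ⟨least_inaccessible_iff, fun hwin hmin =>
    ⟨structure_of_least hwin (least_of_regular hmin), fun hκ =>
      isMahlo_of_least hκ hwin (least_of_regular hmin)⟩⟩

end Pool.Agent.Results.MP_21de40_lc.LeastInaccessible
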