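import Pool.Agent.MP_21de40_lc.Final

/-!
# Diagonal stationary reflection at the least cardinal at which Choose wins

All definitions used are in `Pool/Agent/MP_21de40_lc/Defs.lean`.
-/

namespace Pool.Agent.Results.MP_21de40_lc.Reflection

open Cardinal Ordinal Order MP21de40

universe u

/-- Let `κ` be the least (regular uncountable) cardinal at which Choose wins `𝒰(κ, ≤ω)`, and let
`Z i` (`i < κ`) be stationary subsets of `κ` consisting of ordinals of cofinality `ω`. Then there is
a limit ordinal `a < κ` of uncountable cofinality such that `Z i` is stationary in `a` for all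
`i < a`; if `κ` is inaccessible, then `a` can be taken to be an inaccessible cardinal. -/
theorem result (κ : Cardinal.{u}) (hwin : ChooseWins κ)
    (hmin : ∀ μ < κ, ℵ₀ < μ → μ.IsRegular → ¬ ChooseWins μ)
    (Z : Ordinal.{u} → Set Ordinal.{u})
    (hZ : ∀ i < κ.ord, IsStationaryIn (Z i) κ.ord ∧ ∀ γ ∈ Z i, γ.cof = ℵ₀) :
    (∃ a < κ.ord, IsSuccLimit a ∧ ℵ₀ < a.cof ∧ ∀ i < a, IsStationaryIn (Z i) a) ∧
    (κ.IsInaccessible → ∃ μ < κ, μ.IsInaccessible ∧ ∀ i < μ.ord, IsStationaryIn (Z i) μ.ord) :=
  ⟨exists_reflection hwin (least_of_regular hmin) hZ, fun hκ =>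
    exists_reflection_inaccessible hκ hwin (least_of_regular hmin) hZ⟩

end Pool.Agent.Results.MP_21de40_lc.Reflection
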